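import Pool.Agent.X42.Multifuncoid

/-!
# The poset of completary multifuncoids of the form `(𝒫 ℕ) ^ ℕ` is not atomic
-/

set_option autoImplicit false

namespace Pool.Agent.Results.MP_2da57a_co.NotAtomic

open Pool.Agent.X42.MF

/-- There is a nonempty completary multifuncoid of the form `(𝒫 ℕ) ^ ℕ` with no atom below it. -/
theorem result : ∃ f : Set (ℕ → Set ℕ), IsCompletary f ∧ f ≠ ∅ ∧
    ∀ g : Set (ℕ → Set ℕ), IsAtomMF g → ¬ g ⊆ f :=
  ⟨big, isCompletary_big, big_ne_empty, no_atom_below_big⟩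

end Pool.Agent.Results.MP_2da57a_co.NotAtomic
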