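import Pool.Agent.X42.Multifuncoid

/-!
# The poset of completary multifuncoids of the form `(𝒫 ℕ) ^ ℕ` is not atomistic
-/

set_option autoImplicit false

namespace Pool.Agent.Results.MP_2da57a_co.NotAtomistic

open Pool.Agent.X42.MF

/-- Some completary multifuncoid of the form `(𝒫 ℕ) ^ ℕ` is not the least upper bound, in the poset
of completary multifuncoids ordered by inclusion, of the atoms below it. -/
theorem result : ∃ f : {f : Set (ℕ → Set ℕ) // IsCompletary f},
    ¬ IsLUB {g : {f : Set (ℕ → Set ℕ) // IsCompletary f} |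
        IsAtomMF (g : Set (ℕ → Set ℕ)) ∧ g ≤ f} f := by
  refine ⟨⟨big, isCompletary_big⟩, fun h => big_ne_empty ?_⟩
  have h1 : (⟨big, isCompletary_big⟩ : {f : Set (ℕ → Set ℕ) // IsCompletary f}) ≤
      ⟨∅, isCompletary_empty⟩ := by
    apply h.2
    rintro g ⟨hg, hle⟩
    exact absurd hle (no_atom_below_big g hg)
  exact Set.subset_empty_iff.1 h1

end Pool.Agent.Results.MP_2da57a_co.NotAtomistic
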